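import Pool.Agent.H826Z.Iid.Spec

/-! Bounded convex open planar sets satisfy the cone condition; the thin triangle. -/

set_option autoImplicit false

namespace Pool.Agent.H247Z.Tri

open Pool.Agent.Helper579.Iid Pool.Agent.H826Z.Iid MeasureTheory Set

lemma abs_le_of_sq {a b c : ℝ} (hc : 0 ≤ c) (h : a ^ 2 + b ^ 2 ≤ c ^ 2) : |a| ≤ c ∧ |b| ≤ c :=
  ⟨abs_le_of_sq_le_sq' (by nlinarith [sq_nonneg b]) hc |> abs_le.2,
    abs_le_of_sq_le_sq' (by nlinarith [sq_nonneg a]) hc |> abs_le.2⟩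

lemma cone_of_convex {D : Set (Fin 2 → ℝ)} (ho : IsOpen D) (hc : Convex ℝ D) (hn : D.Nonempty)
    (hb : Bornology.IsBounded D) : ConeCondition D := by
  obtain ⟨z, hz⟩ := hn
  obtain ⟨ε, hε, hball⟩ := Metric.isOpen_iff.1 ho z hz
  obtain ⟨M, hM0, hM⟩ := hb.subset_closedBall_lt 0 z
  have hin : ∀ w : Fin 2 → ℝ, |w 0 - z 0| < ε → |w 1 - z 1| < ε → w ∈ D := by
    intro w h0 h1
    apply hball
    rw [Metric.mem_ball, dist_pi_lt_iff hε]
    intro i
    fin_cases i
    · exact h0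
    · exact h1
  have hθ : 0 < min 1 (ε / (4 * M)) := lt_min one_pos (by positivity)
  refine ⟨min 1 (ε / (4 * M)), ε / 4, hθ, ?_, by positivity, fun x hx => ?_⟩
  · have := Real.pi_gt_three
    have := min_le_left 1 (ε / (4 * M))
    linarith
  obtain ⟨l, hl⟩ : ∃ l, l = √((z 0 - x 0) ^ 2 + (z 1 - x 1) ^ 2) := ⟨_, rfl⟩
  have hl0 : 0 ≤ l := hl ▸ Real.sqrt_nonneg _
  have hl2 : l ^ 2 = (z 0 - x 0) ^ 2 + (z 1 - x 1) ^ 2 := by
    rw [hl, Real.sq_sqrt (by positivity)]
  by_cases hcase : l ≤ ε / 2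
  · refine ⟨![1, 0], by simp, fun y hy _ t ht => ?_⟩
    rw [Fin.sum_univ_two] at hy
    obtain ⟨a0, a1⟩ := abs_le_of_sq hl0 hl2.ge
    obtain ⟨b0, b1⟩ := abs_le_of_sq zero_le_one (a := y 0) (b := y 1) (by linarith)
    rw [abs_le] at a0 a1 b0 b1
    obtain ⟨t0, t1⟩ := ht
    apply hin <;> simp only [Pi.add_apply, Pi.smul_apply, smul_eq_mul] <;> rw [abs_lt] <;>
      constructor <;> nlinarith
  · push Not at hcase
    have hlp : 0 < l := by linarith
    have hlM : l ≤ 2 * M := by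
      have h1 := hM hx
      rw [Metric.mem_closedBall, dist_pi_le_iff hM0.le] at h1
      have h2 := h1 0
      have h3 := h1 1
      rw [Real.dist_eq, abs_le] at h2 h3
      apply abs_le_of_sq_le_sq' _ (by positivity) |>.2
      nlinarith
    refine ⟨![(z 0 - x 0) / l, (z 1 - x 1) / l], ?_, fun y hy hyc t ht => ?_⟩
    · simp only [Fin.sum_univ_two, Matrix.cons_val_zero, Matrix.cons_val_one]
      field_simp
      linarith
    simp only [Fin.sum_univ_two, Matrix.cons_val_zero, Matrix.cons_val_one] at hy hyc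
    obtain ⟨θ, hθe⟩ : ∃ θ, θ = min 1 (ε / (4 * M)) := ⟨_, rfl⟩
    rw [← hθe] at hyc hθ
    have hθM : θ * (4 * M) ≤ ε := by
      rw [← le_div_iff₀ (by positivity), hθe]; exact min_le_right _ _
    have hcos := Real.one_sub_sq_div_two_le_cos (x := θ)
    have hyc' : l * (1 - θ ^ 2 / 2) ≤ y 0 * (z 0 - x 0) + y 1 * (z 1 - x 1) := by
      have : y 0 * ((z 0 - x 0) / l) + y 1 * ((z 1 - x 1) / l) =
          (y 0 * (z 0 - x 0) + y 1 * (z 1 - x 1)) / l := by ring
      rw [this, le_div_iff₀ hlp] at hyc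
      nlinarith
    have hw : (x 0 + l * y 0 - z 0) ^ 2 + (x 1 + l * y 1 - z 1) ^ 2 ≤ (l * θ) ^ 2 := by
      have : (x 0 + l * y 0 - z 0) ^ 2 + (x 1 + l * y 1 - z 1) ^ 2 =
          l ^ 2 * (y 0 ^ 2 + y 1 ^ 2) + ((z 0 - x 0) ^ 2 + (z 1 - x 1) ^ 2) -
            2 * l * (y 0 * (z 0 - x 0) + y 1 * (z 1 - x 1)) := by ring
      rw [this, hy, ← hl2]
      nlinarith
    obtain ⟨c0, c1⟩ := abs_le_of_sq (by positivity) hw
    have hlt : l * θ < ε := by nlinarith
    have hwD : x + l • y ∈ D := by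
      apply hin <;> simp only [Pi.add_apply, Pi.smul_apply, smul_eq_mul] <;> linarith
    obtain ⟨t0, t1⟩ := ht
    have e : x + t • y = (1 - t / l) • x + (t / l) • (x + l • y) := by
      funext i
      simp only [Pi.add_apply, Pi.smul_apply, smul_eq_mul]
      field_simp
      ring
    rw [e]
    refine hc hx hwD ?_ (by positivity) (by ring)
    rw [sub_nonneg, div_le_one hlp]
    linarith

lemma convex_USq : Convex ℝ USq := by
  rw [USq_eq]
  exact convex_pi fun _ _ => convex_Ioo 0 1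

lemma bounded_of_box {D : Set (Fin 2 → ℝ)} {R : ℝ} (h : ∀ x ∈ D, |x 0| ≤ R ∧ |x 1| ≤ R) :
    Bornology.IsBounded D := by
  refine (Metric.isBounded_closedBall (x := (0 : Fin 2 → ℝ)) (r := max R 0)).subset fun x hx => ?_
  rw [Metric.mem_closedBall, dist_pi_le_iff (le_max_right _ _)]
  intro i
  rw [Real.dist_eq, Pi.zero_apply, sub_zero]
  fin_cases i
  · exact (h x hx).1.trans (le_max_left _ _)
  · exact (h x hx).2.trans (le_max_left _ _)

lemma admissible_USq : Admissible USq := by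
  have hn : USq.Nonempty := ⟨fun _ => 1 / 2, by norm_num [USq]⟩
  have hb : Bornology.IsBounded USq := bounded_of_box (R := 1) fun x hx =>
    ⟨abs_le.2 ⟨by linarith [hx.1.1], hx.1.2.le⟩, abs_le.2 ⟨by linarith [hx.2.1], hx.2.2.le⟩⟩
  exact ⟨by norm_num, isOpen_USq, hn, hb, cone_of_convex isOpen_USq convex_USq hn hb⟩

lemma convex_Tri (L : ℝ) : Convex ℝ (Tri L) := by
  intro x hx y hy a b ha hb hab
  obtain ⟨x1, x2, x3⟩ := hx
  obtain ⟨y1, y2, y3⟩ := hy
  have hb' : b = 1 - a := by linarith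
  have key : ∀ u v : ℝ, 0 < u → 0 < v → 0 < a * u + b * v := by
    intro u v hu hv
    rcases ha.eq_or_lt with h | h
    · rw [← h] at hb' ⊢; rw [hb']; linarith
    · have := mul_pos h hu
      have := mul_nonneg hb hv.le
      linarith
  refine ⟨?_, ?_, ?_⟩ <;> simp only [Pi.add_apply, Pi.smul_apply, smul_eq_mul]
  · exact key _ _ x1 y1
  · have := key (L - x 0) (L - y 0) (by linarith) (by linarith)
    rw [hb'] at this ⊢; linarith
  · have := key (2 * x 0 - L ^ 2 * x 1) (2 * y 0 - L ^ 2 * y 1) (by linarith) (by linarith)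
    linarith

lemma isOpen_Tri (L : ℝ) : IsOpen (Tri L) :=
  (isOpen_lt continuous_const (continuous_apply 1)).inter
    ((isOpen_lt (continuous_apply 0) continuous_const).inter
      (isOpen_lt (continuous_const.mul (continuous_apply 1))
        (continuous_const.mul (continuous_apply 0))))

lemma volume_Tri {L : ℝ} (hL : 1 ≤ L) : volume (Tri L) = 1 := by
  have hL0 : 0 < L := by linarith
  have e : Tri L = (MeasurableEquiv.finTwoArrow (α := ℝ)) ⁻¹'
      regionBetween (fun _ => 0) (fun x => 2 / L ^ 2 * x) (Ioo 0 L) := by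
    ext x
    simp only [Tri, regionBetween, mem_ofPred_eq, mem_preimage, MeasurableEquiv.finTwoArrow_apply,
      mem_Ioo]
    have h2 : x 1 < 2 / L ^ 2 * x 0 ↔ L ^ 2 * x 1 < 2 * x 0 := by
      rw [div_mul_eq_mul_div, lt_div_iff₀ (by positivity), mul_comm]
    rw [h2]
    constructor
    · rintro ⟨h1, h3, h4⟩
      have : 0 < L ^ 2 * x 1 := by positivity
      exact ⟨⟨by linarith, h3⟩, h1, h4⟩
    · rintro ⟨⟨_, h3⟩, h1, h4⟩
      exact ⟨h1, h3, h4⟩
  rw [e, (volume_preserving_finTwoArrow ℝ).measure_preimage_equiv, Measure.volume_eq_prod,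
    volume_regionBetween_eq_integral (f := fun _ => 0) (g := fun x => 2 / L ^ 2 * x)
      (integrableOn_zero)
      ((by fun_prop : Continuous fun x : ℝ => 2 / L ^ 2 * x).integrableOn_Icc.mono_set
        Ioo_subset_Icc_self)
      measurableSet_Ioo (fun x hx => by have := hx.1; positivity)]
  have : ∫ y in Ioo 0 L, ((fun x : ℝ => 2 / L ^ 2 * x) - (fun _ : ℝ => (0 : ℝ)) : ℝ → ℝ) y = 1 := by
    simp only [Pi.sub_apply, sub_zero]
    rw [← integral_Ioc_eq_integral_Ioo, ← intervalIntegral.integral_of_le hL0.le,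
      intervalIntegral.integral_const_mul, integral_id]
    field_simp
    ring
  rw [this, ENNReal.ofReal_one]

theorem tri : S_TRI := by
  refine ⟨⟨admissible_USq, convex_USq⟩, fun L hL => ⟨?_, convex_Tri L, volume_Tri hL⟩⟩
  have hL0 : 0 < L := by linarith
  have hn : (Tri L).Nonempty := by
    refine ⟨![L / 2, 1 / (2 * L)], ?_, ?_, ?_⟩
    · show 0 < 1 / (2 * L); positivity
    · show L / 2 < L; linarith
    · show L ^ 2 * (1 / (2 * L)) < 2 * (L / 2)
      have : L ^ 2 * (1 / (2 * L)) = L / 2 := by field_simp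
      rw [this]; linarith
  have hb : Bornology.IsBounded (Tri L) := bounded_of_box (R := 2 * L) fun x hx => by
    obtain ⟨h1, h2, h3⟩ := hx
    have h4 : 0 < L ^ 2 * x 1 := by positivity
    have h5 : x 1 ≤ L ^ 2 * x 1 := by nlinarith [mul_pos hL0 h1]
    exact ⟨abs_le.2 ⟨by linarith, by linarith⟩, abs_le.2 ⟨by linarith, by linarith⟩⟩
  exact ⟨by norm_num, isOpen_Tri L, hn, hb, cone_of_convex (isOpen_Tri L) (convex_Tri L) hn hb⟩

end Pool.Agent.H247Z.Tri
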